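import Mathlib
import Pool.Agent.H447R2.MZ.Dich

set_option autoImplicit false

/-! # Multiple values with the characters modulo four (level four), quasi-shuffle product -/

namespace Pool.Agent.H120R5.BZ

open Finset Filter Topology
open Pool.Agent.H447R2

/-- the letter `(a, c)` at `n`: `χ₄(n)^c / n^a` -/
noncomputable def g (p : ℕ × ℕ) (n : ℕ) : ℝ :=
  ((ZMod.χ₄ (n : ZMod 4) : ℤ) : ℝ) ^ p.2 * ((n : ℝ) ^ p.1)⁻¹

theorem g_add (p q : ℕ × ℕ) (n : ℕ) : g (p + q) n = g p n * g q n := by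
  simp only [g, Prod.fst_add, Prod.snd_add, pow_add, mul_inv]
  ring

theorem abs_g (p : ℕ × ℕ) (n : ℕ) : |g p n| ≤ ((n : ℝ) ^ p.1)⁻¹ := by
  rw [g, abs_mul, abs_of_nonneg (by positivity : (0 : ℝ) ≤ ((n : ℝ) ^ p.1)⁻¹), abs_pow]
  have h : |((ZMod.χ₄ (n : ZMod 4) : ℤ) : ℝ)| ≤ 1 := by
    rcases ZMod.isQuadratic_χ₄ (n : ZMod 4) with h | h | h <;> rw [h] <;> norm_num
  have h2 : |((ZMod.χ₄ (n : ZMod 4) : ℤ) : ℝ)| ^ p.2 ≤ 1 := pow_le_one₀ (abs_nonneg _) h
  have h3 : (0 : ℝ) ≤ ((n : ℝ) ^ p.1)⁻¹ := by positivity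
  nlinarith

/-- truncated sums -/
noncomputable def H : List (ℕ × ℕ) → ℕ → ℝ
  | [], _ => 1
  | (p :: s), N => ∑ n ∈ Finset.range N, g p (n + 1) * H s n

theorem H_nil (N : ℕ) : H [] N = 1 := by simp [H]

theorem H_cons (p : ℕ × ℕ) (s : List (ℕ × ℕ)) (N : ℕ) :
    H (p :: s) N = ∑ n ∈ Finset.range N, g p (n + 1) * H s n := by rw [H]

theorem H_cons_zero (p : ℕ × ℕ) (s : List (ℕ × ℕ)) : H (p :: s) 0 = 0 := by simp [H_cons]

theorem H_cons_succ (p : ℕ × ℕ) (s : List (ℕ × ℕ)) (N : ℕ) :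
    H (p :: s) (N + 1) = H (p :: s) N + g p (N + 1) * H s N := by
  rw [H_cons, Finset.sum_range_succ, ← H_cons]

/-- quasi-shuffle product -/
def st : List (ℕ × ℕ) → List (ℕ × ℕ) → List (List (ℕ × ℕ))
  | [], t => [t]
  | (a :: s), [] => [a :: s]
  | (a :: s), (b :: t) => (st s (b :: t)).map (List.cons a) ++ (st (a :: s) t).map (List.cons b) ++
      (st s t).map (List.cons (a + b))
termination_by s t => s.length + t.length

theorem sum_map_H_succ (a : ℕ × ℕ) (L : List (List (ℕ × ℕ))) (N : ℕ) :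
    ((L.map (List.cons a)).map (fun u => H u (N + 1))).sum =
      ((L.map (List.cons a)).map (fun u => H u N)).sum +
        g a (N + 1) * (L.map (fun u => H u N)).sum := by
  induction L with
  | nil => simp
  | cons u L ih =>
    simp only [List.map_cons, List.sum_cons] at ih ⊢
    rw [ih, H_cons_succ]
    ring

theorem sum_map_H_zero (a : ℕ × ℕ) (L : List (List (ℕ × ℕ))) :
    ((L.map (List.cons a)).map (fun u => H u 0)).sum = 0 := by
  induction L with
  | nil => simp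
  | cons u L ih =>
    simp only [List.map_cons, List.sum_cons] at ih ⊢
    rw [ih, H_cons_zero]
    ring

theorem H_mul (s t : List (ℕ × ℕ)) (N : ℕ) :
    H s N * H t N = ((st s t).map (fun u => H u N)).sum := by
  induction s, t using st.induct generalizing N with
  | case1 t => simp [st, H_nil]
  | case2 a s => simp [st, H_nil]
  | case3 a s b t ih1 ih2 ih3 =>
    rw [st]
    simp only [List.map_append, List.sum_append]
    induction N with
    | zero =>
      rw [H_cons_zero, H_cons_zero]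
      have e1 := sum_map_H_zero a (st s (b :: t))
      have e2 := sum_map_H_zero b (st (a :: s) t)
      have e3 := sum_map_H_zero (a + b) (st s t)
      rw [e1, e2, e3]
      ring
    | succ N ihN =>
      have e1 := sum_map_H_succ a (st s (b :: t)) N
      have e2 := sum_map_H_succ b (st (a :: s) t) N
      have e3 := sum_map_H_succ (a + b) (st s t) N
      rw [e1, e2, e3, ← ih1 N, ← ih2 N, ← ih3 N, H_cons_succ, H_cons_succ]
      rw [g_add]
      linear_combination ihN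

/-- the weights of the quasi-shuffle product -/
theorem st_fst (s t : List (ℕ × ℕ)) : ∀ u ∈ st s t,
    u.map Prod.fst ∈ MZ.st (s.map Prod.fst) (t.map Prod.fst) := by
  induction s, t using st.induct with
  | case1 t => simp [st, MZ.st]
  | case2 a s => simp [st, MZ.st]
  | case3 a s b t ih1 ih2 ih3 =>
    intro u hu
    rw [st] at hu
    simp only [List.map_cons]
    rw [MZ.st]
    simp only [List.mem_append, List.mem_map] at hu ⊢
    rcases hu with (⟨v, hv, rfl⟩ | ⟨v, hv, rfl⟩) | ⟨v, hv, rfl⟩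
    · left; left
      exact ⟨v.map Prod.fst, by simpa using ih1 v hv, by simp⟩
    · left; right
      exact ⟨v.map Prod.fst, by simpa using ih2 v hv, by simp⟩
    · right
      exact ⟨v.map Prod.fst, ih3 v hv, by simp⟩

theorem st_two (s t : List ℕ) (hs : ∀ a ∈ s, 2 ≤ a) (ht : ∀ a ∈ t, 2 ≤ a) :
    ∀ u ∈ MZ.st s t, ∀ a ∈ u, 2 ≤ a := by
  induction s, t using MZ.st.induct with
  | case1 t => simpa [MZ.st] using ht
  | case2 a s => simpa [MZ.st] using hs
  | case3 a s b t ih1 ih2 ih3 =>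
    have ha : 2 ≤ a := hs a (by simp)
    have hb : 2 ≤ b := ht b (by simp)
    have hs' : ∀ c ∈ s, 2 ≤ c := fun c hc => hs c (by simp [hc])
    have ht' : ∀ c ∈ t, 2 ≤ c := fun c hc => ht c (by simp [hc])
    intro u hu c hc
    rw [MZ.st] at hu
    simp only [List.mem_append, List.mem_map] at hu
    rcases hu with (⟨v, hv, rfl⟩ | ⟨v, hv, rfl⟩) | ⟨v, hv, rfl⟩
    · rcases List.mem_cons.1 hc with rfl | hc
      · exact ha
      · exact ih1 hs' ht v hv c hc
    · rcases List.mem_cons.1 hc with rfl | hc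
      · exact hb
      · exact ih2 hs ht' v hv c hc
    · rcases List.mem_cons.1 hc with rfl | hc
      · omega
      · exact ih3 hs' ht' v hv c hc

/-- all entries are at least two -/
def Two (s : List (ℕ × ℕ)) : Prop := ∀ a ∈ s.map Prod.fst, 2 ≤ a

theorem Two.adm {s : List (ℕ × ℕ)} (hs : Two s) : MZ.Adm (s.map Prod.fst) := by
  refine ⟨fun a ha => le_trans (by norm_num) (hs a ha), fun a t h => ?_⟩
  exact hs a (by rw [h]; simp)

theorem st_Two (s t : List (ℕ × ℕ)) (hs : Two s) (ht : Two t) : ∀ u ∈ st s t, Two u :=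
  fun u hu => st_two _ _ hs ht _ (st_fst s t u hu)

theorem sum_T (t : ℕ) (k : Fin t → ℕ × ℕ) (N : ℕ) :
    ∑ m ∈ MZ.T t N, ∏ i, g (k i) (m i) = H (List.ofFn k) N := by
  induction t generalizing N with
  | zero =>
    have : MZ.T 0 N = Finset.univ := by
      ext m
      simp only [MZ.mem_T, Finset.mem_univ, iff_true]
      exact ⟨fun i => i.elim0, fun i => i.elim0⟩
    rw [this]
    simp [H_nil]
  | succ t ih =>
    rw [List.ofFn_succ, H_cons]
    have h1 : ∀ n ∈ Finset.range N, g (k 0) (n + 1) *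
        H (List.ofFn fun i => k i.succ) n =
        ∑ m ∈ MZ.T t n, g (k 0) (n + 1) * ∏ i : Fin t, g (k i.succ) (m i) := by
      intro n _
      rw [← ih (fun i => k i.succ) n, Finset.mul_sum]
    rw [Finset.sum_congr rfl h1, Finset.sum_sigma']
    symm
    refine Finset.sum_bij' (fun x _ => (Fin.cons (x.1 + 1) x.2 : Fin (t + 1) → ℕ))
      (fun m _ => ⟨m 0 - 1, fun i => m i.succ⟩) ?_ ?_ ?_ ?_ ?_
    · rintro ⟨n, m⟩ hx
      simp only [Finset.mem_sigma, Finset.mem_range, MZ.mem_T] at hx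
      obtain ⟨hn, hm1, hm2⟩ := hx
      rw [MZ.mem_T]
      refine ⟨fun i => ?_, ?_⟩
      · induction i using Fin.cases with
        | zero => simp only [Fin.cons_zero]; omega
        | succ i =>
          have := hm1 i
          simp only [Fin.cons_succ]; omega
      · rw [MZ.strictAnti_cons]
        exact ⟨fun i => Nat.lt_succ_of_le (hm1 i).2, hm2⟩
    · intro m hm
      rw [MZ.mem_T] at hm
      obtain ⟨h1, h2⟩ := hm
      have h0 := h1 0
      simp only [Finset.mem_sigma, Finset.mem_range, MZ.mem_T]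
      refine ⟨by omega, fun i => ⟨(h1 i.succ).1, ?_⟩, fun i j hij => h2 (Fin.succ_lt_succ_iff.2 hij)⟩
      have := h2 (Fin.succ_pos i)
      omega
    · rintro ⟨n, m⟩ hx
      simp
    · intro m hm
      rw [MZ.mem_T] at hm
      have h0 := hm.1 0
      funext i
      induction i using Fin.cases with
      | zero => simp only [Fin.cons_zero]; omega
      | succ i => simp
    · rintro ⟨n, m⟩ hx
      rw [Fin.prod_univ_succ]
      simp

theorem sum_TS (t : ℕ) (k : Fin t → ℕ × ℕ) (N : ℕ) :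
    ∑ m ∈ MZ.TS t N, ∏ i, g (k i) (m.1 i) = H (List.ofFn k) N := by
  rw [← sum_T, MZ.TS]
  exact Finset.sum_subtype_of_mem (fun m : Fin t → ℕ => ∏ i, g (k i) (m i))
    (fun m hm => ⟨((MZ.mem_T m).1 hm).2, fun i => (((MZ.mem_T m).1 hm).1 i).1⟩)

/-- the value of an index -/
noncomputable def val (t : ℕ) (k : Fin t → ℕ × ℕ) : ℝ :=
  ∑' m : {m : Fin t → ℕ // StrictAnti m ∧ ∀ i, 1 ≤ m i}, ∏ i, g (k i) (m.1 i)

theorem summable_g (t : ℕ) (k : Fin t → ℕ × ℕ) (hk : MZ.Adm (List.ofFn fun i => (k i).1)) :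
    Summable (fun m : {m : Fin t → ℕ // StrictAnti m ∧ ∀ i, 1 ≤ m i} =>
      ∏ i, g (k i) (m.1 i)) := by
  have h := (MZ.hasSum_val t (fun i => (k i).1) hk).summable
  refine Summable.of_norm_bounded h (fun m => ?_)
  rw [Real.norm_eq_abs, Finset.abs_prod]
  exact Finset.prod_le_prod (fun i _ => abs_nonneg _) (fun i _ => abs_g _ _)

theorem tendsto_H (t : ℕ) (k : Fin t → ℕ × ℕ) (hk : MZ.Adm (List.ofFn fun i => (k i).1)) :
    Tendsto (H (List.ofFn k)) atTop (𝓝 (val t k)) := by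
  have htend : Tendsto (MZ.TS t) atTop atTop :=
    tendsto_atTop_finset_of_monotone (MZ.TS_mono t) (MZ.TS_exhaust t)
  have h1 := (summable_g t k hk).hasSum.comp htend
  refine h1.congr fun N => ?_
  simp only [Function.comp]
  exact sum_TS t k N

/-- the value of a list -/
noncomputable def lval (s : List (ℕ × ℕ)) : ℝ := val s.length s.get

theorem ofFn_fst (s : List (ℕ × ℕ)) : (List.ofFn fun i => (s.get i).1) = s.map Prod.fst := by
  have : (List.ofFn fun i => (s.get i).1) = (List.ofFn s.get).map Prod.fst := by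
    rw [List.map_ofFn]; rfl
  rw [this, List.ofFn_get]

theorem tendsto_lval (s : List (ℕ × ℕ)) (hs : MZ.Adm (s.map Prod.fst)) :
    Tendsto (H s) atTop (𝓝 (lval s)) := by
  have h := tendsto_H s.length s.get (by rw [ofFn_fst]; exact hs)
  rwa [List.ofFn_get] at h

theorem lval_mul (s t : List (ℕ × ℕ)) (hs : MZ.Adm (s.map Prod.fst))
    (ht : MZ.Adm (t.map Prod.fst)) : lval s * lval t = ((st s t).map lval).sum := by
  have h1 : Tendsto (fun N => H s N * H t N) atTop (𝓝 (lval s * lval t)) :=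
    (tendsto_lval s hs).mul (tendsto_lval t ht)
  have h2 : Tendsto (fun N => ((st s t).map (fun u => H u N)).sum) atTop
      (𝓝 ((st s t).map lval).sum) := by
    apply tendsto_list_sum
    intro u hu
    exact tendsto_lval u (MZ.st_adm _ _ hs ht _ (st_fst s t u hu))
  refine tendsto_nhds_unique h1 ?_
  simpa only [H_mul] using h2

/-- the span of the values of weight `n` -/
noncomputable def Bs (n : ℕ) : Submodule ℚ ℝ :=
  Submodule.span ℚ
    {x : ℝ | ∃ t : ℕ, ∃ k c : Fin t → ℕ, (∀ i, 2 ≤ k i) ∧ (∑ i, k i) = n ∧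
      x = ∑' m : {m : Fin t → ℕ // StrictAnti m ∧ ∀ i, 1 ≤ m i},
            ∏ i, ((ZMod.χ₄ ((m.1 i : ℕ) : ZMod 4) : ℤ) : ℝ) ^ (c i) *
              (((m.1 i : ℕ) : ℝ) ^ (k i))⁻¹}

theorem Bs_eq (n : ℕ) : Bs n = Submodule.span ℚ
    {x : ℝ | ∃ s : List (ℕ × ℕ), Two s ∧ (s.map Prod.fst).sum = n ∧ x = lval s} := by
  unfold Bs
  congr 1
  ext x
  constructor
  · rintro ⟨t, k, c, h1, h3, rfl⟩
    let κ : Fin t → ℕ × ℕ := fun i => (k i, c i)
    have hmap : (List.ofFn κ).map Prod.fst = List.ofFn k := by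
      rw [List.map_ofFn]; rfl
    have htwo : Two (List.ofFn κ) := by
      intro a ha
      rw [hmap, List.mem_ofFn] at ha
      obtain ⟨i, rfl⟩ := ha
      exact h1 i
    refine ⟨List.ofFn κ, htwo, by rw [hmap, List.sum_ofFn, h3], ?_⟩
    have e1 := tendsto_H t κ (by have := htwo.adm; rwa [hmap] at this)
    have e2 := tendsto_lval (List.ofFn κ) htwo.adm
    have e3 := tendsto_nhds_unique e1 e2
    rw [← e3]
    rfl
  · rintro ⟨s, hs, h3, rfl⟩
    refine ⟨s.length, fun i => (s.get i).1, fun i => (s.get i).2, fun i => ?_, ?_, rfl⟩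
    · exact hs _ (List.mem_map.2 ⟨s.get i, List.get_mem s i, rfl⟩)
    · rw [← List.sum_ofFn, ofFn_fst, h3]

theorem lval_mem (s : List (ℕ × ℕ)) (hs : Two s) : lval s ∈ Bs (s.map Prod.fst).sum := by
  rw [Bs_eq]
  exact Submodule.subset_span ⟨s, hs, rfl, rfl⟩

theorem mul_mem (a b : ℕ) (x y : ℝ) (hx : x ∈ Bs a) (hy : y ∈ Bs b) : x * y ∈ Bs (a + b) := by
  have hab : Bs a * Bs b ≤ Bs (a + b) := by
    rw [Bs_eq a, Bs_eq b, Submodule.span_mul_span, Submodule.span_le]
    rintro _ ⟨_, ⟨s, hs, hsa, rfl⟩, _, ⟨t, ht, htb, rfl⟩, rfl⟩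
    simp only [SetLike.mem_coe]
    rw [lval_mul s t hs.adm ht.adm]
    refine list_sum_mem fun z hz => ?_
    rw [List.mem_map] at hz
    obtain ⟨u, hu, rfl⟩ := hz
    have h1 := st_fst s t u hu
    have := lval_mem u (st_Two s t hs ht u hu)
    rwa [MZ.st_sum _ _ _ h1, hsa, htb] at this
  exact hab (Submodule.mul_mem_mul hx hy)

theorem one_mem : (1 : ℝ) ∈ Bs 0 := by
  have h : Two [] := by intro a ha; simp at ha
  have h0 := lval_mem [] h
  have h1 := tendsto_lval [] h.adm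
  have h2 : Tendsto (H []) atTop (𝓝 1) := by
    have : H [] = fun _ => 1 := by funext N; exact H_nil N
    rw [this]
    exact tendsto_const_nhds
  have e := tendsto_nhds_unique h1 h2
  rw [e] at h0
  simpa using h0

theorem zeta_mem (a : ℕ) (ha : 2 ≤ a) : (∑' n : ℕ, (1 : ℝ) / ((n : ℝ) + 1) ^ a) ∈ Bs a := by
  have htwo : Two [(a, 0)] := by
    intro b hb
    simp only [List.map_cons, List.map_nil, List.mem_singleton] at hb
    omega
  have hadm : MZ.Adm [a] := htwo.adm
  have h1 := tendsto_lval [(a, 0)] htwo.adm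
  have h2 := MZ.tendsto_H [a] hadm
  have h3 : H [(a, 0)] = MZ.H [a] := by
    funext N
    rw [H_cons, MZ.H_cons]
    apply Finset.sum_congr rfl
    intro n _
    rw [H_nil, MZ.H_nil]
    simp [g]
  rw [h3] at h1
  have e := tendsto_nhds_unique h1 h2
  rw [(MZ.val_single a ha).tsum_eq, ← e]
  simpa using lval_mem [(a, 0)] htwo

theorem pi_sq_mem : Real.pi ^ 2 ∈ Bs 2 := by
  have h := zeta_mem 2 le_rfl
  rw [MZ.zeta_two] at h
  have := Submodule.smul_mem (Bs 2) (6 : ℚ) h
  have e : (6 : ℚ) • (Real.pi ^ 2 / 6) = Real.pi ^ 2 := by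
    rw [Rat.smul_def]
    push_cast
    ring
  rwa [e] at this

theorem pow_mem (a : ℕ) (x : ℝ) (hx : x ∈ Bs a) (i : ℕ) : x ^ i ∈ Bs (a * i) := by
  induction i with
  | zero => simpa using one_mem
  | succ i ih =>
    rw [pow_succ, Nat.mul_succ]
    exact mul_mem _ _ _ _ ih hx

theorem pi_pow_mem (i : ℕ) : Real.pi ^ (2 * i) ∈ Bs (2 * i) := by
  rw [pow_mul]
  exact pow_mem 2 _ pi_sq_mem i

/-- Catalan's constant -/
noncomputable def catalan : ℝ := ∑' j : ℕ, (-1 : ℝ) ^ j / (2 * (j : ℝ) + 1) ^ 2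

theorem summable_catalan : Summable (fun j : ℕ => (-1 : ℝ) ^ j / (2 * (j : ℝ) + 1) ^ 2) := by
  have h : Summable (fun j : ℕ => (1 : ℝ) / ((j : ℝ) + 1) ^ 2) := by
    have := (summable_nat_add_iff (f := fun n : ℕ => (1 : ℝ) / (n : ℝ) ^ 2) 1).2
      (Real.summable_one_div_nat_pow.2 (by norm_num))
    simpa using this
  refine Summable.of_norm_bounded h (fun j => ?_)
  rw [Real.norm_eq_abs, abs_div, abs_pow, abs_neg, abs_one, one_pow,
    abs_of_nonneg (by positivity : (0 : ℝ) ≤ (2 * (j : ℝ) + 1) ^ 2)]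
  apply one_div_le_one_div_of_le (by positivity)
  have : (0 : ℝ) ≤ (j : ℝ) := Nat.cast_nonneg _
  nlinarith

theorem chi_odd (M : ℕ) : ((ZMod.χ₄ ((2 * M + 1 : ℕ) : ZMod 4) : ℤ) : ℝ) = (-1) ^ M := by
  rw [ZMod.χ₄_eq_neg_one_pow (by omega)]
  have : (2 * M + 1) / 2 = M := by omega
  rw [this]
  push_cast
  rfl

theorem chi_even (M : ℕ) : ((ZMod.χ₄ ((2 * M + 1 + 1 : ℕ) : ZMod 4) : ℤ) : ℝ) = 0 := by
  have h : ZMod.χ₄ ((2 * M + 1 + 1 : ℕ) : ZMod 4) = 0 := by
    rw [ZMod.χ₄_nat_eq_if_mod_four]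
    rw [if_pos (by omega)]
  rw [h]
  simp

theorem H_catalan (M : ℕ) : H [(2, 1)] (2 * M) =
    ∑ j ∈ Finset.range M, (-1 : ℝ) ^ j / (2 * (j : ℝ) + 1) ^ 2 := by
  induction M with
  | zero => simp [H_cons]
  | succ M ih =>
    have e : 2 * (M + 1) = 2 * M + 1 + 1 := by ring
    rw [e, H_cons_succ, H_cons_succ, ih, Finset.sum_range_succ, H_nil, H_nil]
    simp only [g]
    rw [chi_odd, chi_even]
    push_cast
    ring

theorem catalan_mem : catalan ∈ Bs 2 := by
  have htwo : Two [(2, 1)] := by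
    intro b hb
    simp only [List.map_cons, List.map_nil, List.mem_singleton] at hb
    omega
  have h1 := tendsto_lval [(2, 1)] htwo.adm
  have h2 : Tendsto (fun M : ℕ => 2 * M) atTop atTop :=
    tendsto_atTop_mono (fun M => by omega : ∀ M : ℕ, M ≤ 2 * M) tendsto_id
  have h3 := h1.comp h2
  have h4 := summable_catalan.hasSum.tendsto_sum_nat
  have h5 : Tendsto (H [(2, 1)] ∘ fun M : ℕ => 2 * M) atTop (𝓝 catalan) := by
    refine h4.congr fun M => ?_
    simp only [Function.comp]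
    rw [H_catalan]
  have h6 := tendsto_nhds_unique h5 h3
  rw [h6]
  simpa using lval_mem [(2, 1)] htwo

theorem catalan_pos : 0 < catalan := by
  -- partial sums with an even number of terms are at least the first two terms
  have h4 := summable_catalan.hasSum.tendsto_sum_nat
  have h2 : Tendsto (fun M : ℕ => 2 * M) atTop atTop :=
    tendsto_atTop_mono (fun M => by omega : ∀ M : ℕ, M ≤ 2 * M) tendsto_id
  have h5 := h4.comp h2
  have key : ∀ M : ℕ, (8 / 9 : ℝ) ≤ ∑ j ∈ Finset.range (2 * (M + 1)),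
      (-1 : ℝ) ^ j / (2 * (j : ℝ) + 1) ^ 2 := by
    intro M
    induction M with
    | zero =>
      simp [Finset.sum_range_succ]
      norm_num
    | succ M ih =>
      have e : 2 * (M + 1 + 1) = 2 * (M + 1) + 1 + 1 := by ring
      rw [e, Finset.sum_range_succ, Finset.sum_range_succ]
      have hs : (-1 : ℝ) ^ (2 * (M + 1)) = 1 := by rw [pow_mul]; norm_num
      have hs2 : (-1 : ℝ) ^ (2 * (M + 1) + 1) = -1 := by rw [pow_succ, hs]; norm_num
      rw [hs, hs2]
      have h : (1 : ℝ) / (2 * ((2 * (M + 1) + 1 : ℕ) : ℝ) + 1) ^ 2 ≤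
          1 / (2 * ((2 * (M + 1) : ℕ) : ℝ) + 1) ^ 2 := by
        apply one_div_le_one_div_of_le (by positivity)
        apply pow_le_pow_left₀ (by positivity)
        push_cast
        linarith
      have h' : (-1 : ℝ) / (2 * ((2 * (M + 1) + 1 : ℕ) : ℝ) + 1) ^ 2 =
          - (1 / (2 * ((2 * (M + 1) + 1 : ℕ) : ℝ) + 1) ^ 2) := by ring
      rw [h']
      linarith
  have h6 : (8 / 9 : ℝ) ≤ catalan := by
    refine ge_of_tendsto h5 ?_
    filter_upwards [eventually_ge_atTop 1] with M hM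
    obtain ⟨N, rfl⟩ : ∃ N, M = N + 1 := ⟨M - 1, by omega⟩
    exact key N
  linarith

theorem rank_ge {n M : ℕ} (v : Fin M → ℝ) (hv : LinearIndependent ℚ v) (hm : ∀ i, v i ∈ Bs n) :
    (M : Cardinal) ≤ Module.rank ℚ (Bs n) := by
  let w : Fin M → Bs n := fun i => ⟨v i, hm i⟩
  have hw : LinearIndependent ℚ w := LinearIndependent.of_comp (Bs n).subtype hv
  have := hw.cardinal_le_rank
  simpa using this

theorem pow_rank_ge {n M : ℕ} (c x : ℝ) (hc : c ≠ 0) (hx : Transcendental ℚ x)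
    (hm : ∀ i < M, c * x ^ i ∈ Bs n) : (M : Cardinal) ≤ Module.rank ℚ (Bs n) := by
  apply rank_ge (fun i : Fin M => c * x ^ (i : ℕ)) _ (fun i => hm i i.2)
  have h1 : LinearIndependent ℚ (fun i : Fin M => x ^ (i : ℕ)) :=
    (MZ.pow_linInd x hx).comp _ Fin.val_injective
  have h2 := h1.map' (LinearMap.mulLeft ℚ c) (LinearMap.ker_eq_bot.2 (mul_right_injective₀ hc))
  exact h2

end Pool.Agent.H120R5.BZ
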